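import Pool.Agent.H.MP_0ca78d_co.A

namespace Pool.Agent.Results.MP_0ca78d_co.No

open SimpleGraph Pool.Agent.H.MP_0ca78d_co

/-- Every edge lies in a cycle of each length `3, ..., k` and in a Hamilton cycle. -/
def EdgeProper {V : Type} [DecidableEq V] (k : ℕ) (G : SimpleGraph V) : Prop := ∀ e ∈ G.edgeSet,
  (∀ i, 3 ≤ i → i ≤ k → ∃ (v : V) (c : G.Walk v v), c.IsCycle ∧ c.length = i ∧ e ∈ c.edges) ∧
    ∃ (v : V) (c : G.Walk v v), c.IsHamiltonianCycle ∧ e ∈ c.edges

theorem result : ∃ k : ℕ, 5 ≤ k ∧ ∀ N, ∃ n ≥ N, ∃ G : SimpleGraph (Fin n), EdgeProper k G ∧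
    (G.edgeSet.ncard : ℤ) < ⌈((4 * k - 9) * n : ℚ) / (2 * k - 4)⌉ := by
  refine ⟨22, by norm_num, fun N => ⟨38 * (N + 2), by omega, ?_⟩⟩
  obtain ⟨φ, hφ⟩ : ∃ φ : ℕ → Fin (38 * (N + 2)), ∀ j, (φ j).val = j % (38 * (N + 2)) :=
    ⟨fun j => ⟨_, Nat.mod_lt j (by omega)⟩, fun _ => rfl⟩
  let F := (Finset.range (N + 2) ×ˢ EE.toFinset).image
    fun p => s(φ (38 * p.1 + p.2.1), φ (38 * p.1 + p.2.2))
  have inj : ∀ c u v, u ≤ 38 → v ≤ 38 → φ (38 * c + u) = φ (38 * c + v) → u = v :=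
    fun c u v hu hv h => by
      have := congrArg Fin.val h
      rw [hφ, hφ] at this
      exact (Nat.ModEq.add_left_cancel' _ this).eq_of_lt_of_lt (by omega) (by omega)
  have adj : ∀ l i, Ok l i → ∀ c < N + 2, ∀ j < i, (fromEdgeSet F).Adj (φ (38 * c + l.getD j 0))
      (φ (38 * c + l.getD (j + 1) 0)) := fun l i h c hc j hj => by
    obtain ⟨h1, h2, h3, h4⟩ := h.1 j hj
    refine (fromEdgeSet_adj _).2 ⟨Finset.mem_image.2 ?_, fun h => h3 (inj _ _ _ h1 h2 h)⟩
    rcases h4 with h | h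
    · exact ⟨(c, _), by simpa [hc] using h, rfl⟩
    · exact ⟨(c, _), by simpa [hc] using h, Sym2.eq_swap⟩
  refine ⟨fromEdgeSet F, fun e he => ?_, ?_⟩
  · rw [edgeSet_fromEdgeSet] at he
    obtain ⟨⟨c, e⟩, h, rfl⟩ := Finset.mem_image.1 he.1
    simp only [Finset.mem_product, Finset.mem_range, List.mem_toFinset] at h
    have on : ∀ l i, On l i e → ∃ j < i, s(φ (38 * c + e.1), φ (38 * c + e.2)) =
        s(φ (38 * c + l.getD j 0), φ (38 * c + l.getD (j + 1) 0)) := by
      rintro l i ⟨j, hj, rfl | rfl⟩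
      exacts [⟨j, hj, rfl⟩, ⟨j, hj, Sym2.eq_swap⟩]
    refine ⟨fun i h1 h2 => ?_, ?_⟩
    · obtain ⟨l, h3, h4⟩ := c2 i (by omega) h1 e h.2
      obtain ⟨h5, h6⟩ := c1 i (by omega) l h3
      obtain ⟨j, h7, h8⟩ := on l i h4
      exact h8 ▸ cyc (fun j => φ (38 * c + l.getD j 0)) i h1 (adj l i h5 c h.1) (by simp only [h6])
        (fun a ha b hb h => h5.2 a ha b hb (inj _ _ _ (h5.1 a ha).1 (h5.1 b hb).1 h)) h7
    · obtain ⟨l, -, h1, h2, h3, h4, h5⟩ := c3 e h.2
      obtain ⟨j, h7, h8⟩ := on l _ h1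
      have k : ∀ j, 38 * ((j + 1) / 38) + l.getD ((j + 1) % 38) 0 =
          38 * (j / 38) + l.getD (j % 38 + 1) 0 := fun j => by
        by_cases h : j % 38 = 37
        · rw [h, show (j + 1) % 38 = 0 by omega, h3, h4]
          omega
        · rw [show (j + 1) % 38 = j % 38 + 1 by omega]
          omega
      obtain ⟨v, p, h9, h10, h11⟩ := cyc (G := fromEdgeSet F)
        (fun j => φ (38 * (j / 38) + l.getD (j % 38) 0)) (38 * (N + 2)) (by omega)
        (fun j hj => by rw [k]; exact adj l _ h2 _ (by omega) _ (by omega))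
        (Fin.ext (by simp [hφ, -List.getD_eq_getElem?_getD, h3])) (fun a ha b hb h => by
          have := congrArg Fin.val h
          have ha' := h5 (a % 38) (by omega)
          have hb' := h5 (b % 38) (by omega)
          simp only [hφ] at this
          rw [Nat.mod_eq_of_lt (a := 38 * (a / 38) + _) (by omega),
            Nat.mod_eq_of_lt (a := 38 * (b / 38) + _) (by omega)] at this
          have := h2.2 (a % 38) (by omega) (b % 38) (by omega) (by omega)
          omega) (j := 38 * c + j) (by omega)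
      rw [k, show (38 * c + j) / 38 = c by omega, show (38 * c + j) % 38 = j by omega] at h11
      exact ⟨v, p, Walk.isHamiltonianCycle_iff_isCycle_and_length_eq.2 ⟨h9, by simpa using h10⟩,
        h8 ▸ h11⟩
  · have h1 : (fromEdgeSet (V := Fin (38 * (N + 2))) F).edgeSet.ncard ≤ (N + 2) * 75 := by
      refine (Set.ncard_le_ncard (t := (F : Set _)) (by simp [Set.diff_subset])).trans ?_
      rw [Set.ncard_coe_finset]
      refine Finset.card_image_le.trans ?_
      rw [Finset.card_product, Finset.card_range]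
      exact Nat.mul_le_mul_left _ (List.toFinset_card_le _)
    rw [Int.lt_ceil, lt_div_iff₀ (by norm_num)]
    have : ((fromEdgeSet (V := Fin (38 * (N + 2))) F).edgeSet.ncard : ℚ) ≤ (N + 2) * 75 := by exact_mod_cast h1
    push_cast
    linarith [(Nat.cast_nonneg N : (0 : ℚ) ≤ N)]

end Pool.Agent.Results.MP_0ca78d_co.No
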